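import Mathlib
import Pool.Agent.Lib.MP_eb294e_an.Defs
import Pool.Agent.Lib.MP_eb294e_an.BReg
import Pool.Agent.Lib.MP_eb294e_an.Main

namespace Pool.Agent.Results.MP_eb294e_an.BallCounterexample

open Pool.Agent.Lib.MP_eb294e_an

/-- In the unit ball of complex dimension two there are negative psh functions with the same
idempotent residual function whose rooftop envelope has a strictly smaller residual function. -/
theorem result :
    ∃ (D : Set (EuclideanSpace ℂ (Fin 2))) (φ ψ g : EuclideanSpace ℂ (Fin 2) → EReal),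
      D = Metric.ball 0 1 ∧ IsOpen D ∧ IsConnected D ∧ Bornology.IsBounded D ∧ IsBRegular D ∧
      IsNegPSH D φ ∧ IsNegPSH D ψ ∧ IsNegPSH D g ∧
      (∀ z ∈ D, φ z < 0 ∧ ψ z < 0 ∧ g z < 0) ∧
      (∀ z ∈ D, residual D φ z = g z) ∧ (∀ z ∈ D, residual D ψ z = g z) ∧
      (∀ z ∈ D, residual D g z = g z) ∧
      ∀ z ∈ D, residual D (rooftop D φ ψ) z < g z :=
  ⟨B2, fun x => (phir x : EReal), fun x => (psir x : EReal), fun x => (gr x : EReal), rfl,
    Metric.isOpen_ball, (convex_ball _ _).isConnected B2_nonempty, Metric.isBounded_ball,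
    isBRegular_ball two_pos, negPSH_phir, negPSH_psir, negPSH_gr,
    fun z hz => ⟨EReal.coe_neg'.mpr ((phir_le z).trans_lt (gr_neg hz)),
      EReal.coe_neg'.mpr ((psir_le z).trans_lt (gr_neg hz)), EReal.coe_neg'.mpr (gr_neg hz)⟩,
    residual_phir, residual_psir, residual_gr, residual_rooftop_lt⟩

end Pool.Agent.Results.MP_eb294e_an.BallCounterexample
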